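import Mathlib

open Polynomial

namespace Pool.Agent.Lib.StL

/-- A nonzero real polynomial all of whose roots in an open interval have even multiplicity does
not change sign there. -/
theorem const_sign_aux (a b : ℝ) : ∀ (N : ℕ) (p : ℝ[X]), p.natDegree ≤ N → p ≠ 0 →
    (∀ r, a < r → r < b → Even (p.rootMultiplicity r)) →
    (∀ x, a < x → x < b → 0 ≤ p.eval x) ∨ (∀ x, a < x → x < b → p.eval x ≤ 0) := by
  intro N
  induction N using Nat.strong_induction_on with
  | _ N ih =>
    intro p hN hp hev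
    by_contra hcon
    push Not at hcon
    obtain ⟨⟨x, hxa, hxb, hx⟩, ⟨y, hya, hyb, hy⟩⟩ := hcon
    -- a root between x and y
    obtain ⟨r, hra, hrb, hr⟩ : ∃ r, a < r ∧ r < b ∧ p.eval r = 0 := by
      have hc : ContinuousOn (fun t => p.eval t) (Set.uIcc x y) := p.continuous.continuousOn
      have := intermediate_value_uIcc hc
      have h0 : (0 : ℝ) ∈ Set.uIcc (p.eval x) (p.eval y) := by
        rw [Set.mem_uIcc]; left; exact ⟨hx.le, hy.le⟩
      obtain ⟨r, hr, hr0⟩ := this h0
      refine ⟨r, ?_, ?_, hr0⟩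
      · rcases Set.mem_uIcc.1 hr with h | h <;> linarith [h.1]
      · rcases Set.mem_uIcc.1 hr with h | h <;> linarith [h.2]
    obtain ⟨q, hq, hqr⟩ := Polynomial.exists_eq_pow_rootMultiplicity_mul_and_not_dvd p hp r
    set k := p.rootMultiplicity r with hk
    have hkpos : 0 < k := by
      rw [hk, Polynomial.rootMultiplicity_pos hp]; exact hr
    have hke : Even k := hev r hra hrb
    have hq0 : q ≠ 0 := by
      rintro rfl; simp at hqr
    have hdeg : q.natDegree < p.natDegree := by
      conv_rhs => rw [hq]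
      rw [Polynomial.natDegree_mul (pow_ne_zero _ (X_sub_C_ne_zero r)) hq0, natDegree_pow,
        natDegree_X_sub_C]
      omega
    have hevq : ∀ s, a < s → s < b → Even (q.rootMultiplicity s) := by
      intro s hsa hsb
      by_cases hsr : s = r
      · subst hsr
        have : q.rootMultiplicity s = 0 := by
          rw [Polynomial.rootMultiplicity_eq_zero_iff]
          intro h
          exact absurd (Polynomial.dvd_iff_isRoot.2 h) hqr
        rw [this]; exact ⟨0, rfl⟩
      · have h1 := hev s hsa hsb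
        rw [hq, Polynomial.rootMultiplicity_mul (by rw [← hq]; exact hp)] at h1
        have : ((X - C r) ^ k).rootMultiplicity s = 0 := by
          rw [Polynomial.rootMultiplicity_eq_zero_iff]
          intro h
          exfalso
          have : (s - r) ^ k = 0 := by simpa [IsRoot.def] using h
          exact hsr (sub_eq_zero.1 (pow_eq_zero_iff (by omega) |>.1 this))
        rw [this, zero_add] at h1
        exact h1
    have hpow : ∀ t : ℝ, 0 ≤ (t - r) ^ k := fun t => hke.pow_nonneg _
    rcases ih q.natDegree (by omega) q le_rfl hq0 hevq with h | h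
    · have := h x hxa hxb
      have h2 : p.eval x = (x - r) ^ k * q.eval x := by
        conv_lhs => rw [hq]
        simp
      rw [h2] at hx
      exact absurd hx (not_lt.2 (mul_nonneg (hpow x) this))
    · have := h y hya hyb
      have h2 : p.eval y = (y - r) ^ k * q.eval y := by
        conv_lhs => rw [hq]
        simp
      rw [h2] at hy
      exact absurd hy (not_lt.2 (mul_nonpos_of_nonneg_of_nonpos (hpow y) this))

/-- The closed version. -/
theorem const_sign (p : ℝ[X]) (hp : p ≠ 0)
    (hev : ∀ r, (-1 : ℝ) < r → r < 1 → Even (p.rootMultiplicity r)) :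
    (∀ x, (-1 : ℝ) ≤ x → x ≤ 1 → 0 ≤ p.eval x) ∨ (∀ x, (-1 : ℝ) ≤ x → x ≤ 1 → p.eval x ≤ 0) := by
  have hcl : closure (Set.Ioo (-1 : ℝ) 1) = Set.Icc (-1) 1 := closure_Ioo (by norm_num)
  rcases const_sign_aux (-1) 1 _ p le_rfl hp hev with h | h
  · left
    intro x h1 h2
    have hs : IsClosed {x : ℝ | 0 ≤ p.eval x} := isClosed_le continuous_const p.continuous
    have := closure_minimal (s := Set.Ioo (-1 : ℝ) 1) (fun y hy => h y hy.1 hy.2) hs
    rw [hcl] at this
    exact this ⟨h1, h2⟩
  · right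
    intro x h1 h2
    have hs : IsClosed {x : ℝ | p.eval x ≤ 0} := isClosed_le p.continuous continuous_const
    have := closure_minimal (s := Set.Ioo (-1 : ℝ) 1) (fun y hy => h y hy.1 hy.2) hs
    rw [hcl] at this
    exact this ⟨h1, h2⟩

/-- The finite set of roots in `(-1, 1)` of odd multiplicity. -/
noncomputable def oddRoots (Q : ℝ[X]) : Finset ℝ :=
  Q.roots.toFinset.filter (fun r => (-1 < r ∧ r < 1) ∧ Odd (Q.rootMultiplicity r))

theorem mem_oddRoots {Q : ℝ[X]} (hQ : Q ≠ 0) {r : ℝ} :
    r ∈ oddRoots Q ↔ (-1 < r ∧ r < 1) ∧ Odd (Q.rootMultiplicity r) := by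
  classical
  unfold oddRoots
  rw [Finset.mem_filter, Multiset.mem_toFinset, mem_roots hQ]
  constructor
  · exact fun h => h.2
  · intro h
    refine ⟨?_, h⟩
    have : 0 < Q.rootMultiplicity r := h.2.pos
    exact (Polynomial.rootMultiplicity_pos hQ).1 this

theorem oddRoots_isRoot {Q : ℝ[X]} (hQ : Q ≠ 0) {r : ℝ} (h : r ∈ oddRoots Q) : Q.eval r = 0 := by
  have h2 := (mem_oddRoots hQ).1 h
  exact (Polynomial.rootMultiplicity_pos hQ).1 h2.2.pos

/-- `Q` times the product over its odd roots has constant sign on `[-1, 1]`. -/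
theorem const_sign_mul (Q : ℝ[X]) (hQ : Q ≠ 0) :
    (∀ x, (-1 : ℝ) ≤ x → x ≤ 1 → 0 ≤ Q.eval x * ∏ r ∈ oddRoots Q, (x - r)) ∨
    (∀ x, (-1 : ℝ) ≤ x → x ≤ 1 → Q.eval x * ∏ r ∈ oddRoots Q, (x - r) ≤ 0) := by
  classical
  set T : ℝ[X] := ∏ r ∈ oddRoots Q, (X - C r) with hT
  have hT0 : T ≠ 0 := Finset.prod_ne_zero_iff.2 (fun r _ => X_sub_C_ne_zero r)
  have hQT : Q * T ≠ 0 := mul_ne_zero hQ hT0
  have hev : ∀ x, (Q * T).eval x = Q.eval x * ∏ r ∈ oddRoots Q, (x - r) := by
    intro x
    rw [eval_mul, hT, eval_prod]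
    simp
  have hTr : ∀ r, T.rootMultiplicity r = if r ∈ oddRoots Q then 1 else 0 := by
    intro r
    rw [← count_roots, hT, roots_prod_X_sub_C, Multiset.count_eq_of_nodup (oddRoots Q).nodup]
    rfl
  have := const_sign (Q * T) hQT (by
    intro r h1 h2
    rw [rootMultiplicity_mul hQT, hTr]
    by_cases hr : r ∈ oddRoots Q
    · rw [if_pos hr]
      have := ((mem_oddRoots hQ).1 hr).2
      exact this.add_one
    · rw [if_neg hr, add_zero]
      by_contra hodd
      rw [Nat.not_even_iff_odd] at hodd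
      exact hr ((mem_oddRoots hQ).2 ⟨⟨h1, h2⟩, hodd⟩))
  simpa only [hev] using this

end Pool.Agent.Lib.StL
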