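import Mathlib

open Polynomial

namespace Pool.Agent.Lib.StL

/-- The root of unity filter: if `M` exceeds both the degree of `G` and `c`, and the coefficient
of `X ^ c` in `G` is zero, then `∑ e^{-i c θ_k} G(e^{i θ_k}) = 0`, `θ_k = 2πk/M`. -/
theorem filter_sum (G : ℂ[X]) (M c : ℕ) (hG : G.natDegree < M) (hc : c < M)
    (h0 : G.coeff c = 0) :
    ∑ k ∈ Finset.range M, Complex.exp (-(c : ℂ) * ((2 * Real.pi * k / M : ℝ) : ℂ) * Complex.I) *
      G.eval (Complex.exp (((2 * Real.pi * k / M : ℝ) : ℂ) * Complex.I)) = 0 := by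
  have hM : M ≠ 0 := by omega
  have hMC : (M : ℂ) ≠ 0 := by exact_mod_cast hM
  have hexp : ∀ k : ℕ, ∀ j : ℕ, Complex.exp (-(c : ℂ) * ((2 * Real.pi * k / M : ℝ) : ℂ) * Complex.I) *
      (Complex.exp (((2 * Real.pi * k / M : ℝ) : ℂ) * Complex.I)) ^ j =
      (Complex.exp (2 * Real.pi * Complex.I * (((j : ℤ) - c : ℤ) / M : ℂ))) ^ k := by
    intro k j
    rw [← Complex.exp_nat_mul, ← Complex.exp_nat_mul, ← Complex.exp_add]
    congr 1
    push_cast
    field_simp
    ring
  have h1 : ∀ k ∈ Finset.range M,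
      Complex.exp (-(c : ℂ) * ((2 * Real.pi * k / M : ℝ) : ℂ) * Complex.I) *
      G.eval (Complex.exp (((2 * Real.pi * k / M : ℝ) : ℂ) * Complex.I)) =
      ∑ j ∈ Finset.range M, G.coeff j *
        (Complex.exp (2 * Real.pi * Complex.I * (((j : ℤ) - c : ℤ) / M : ℂ))) ^ k := by
    intro k _
    rw [Polynomial.eval_eq_sum_range' hG, Finset.mul_sum]
    refine Finset.sum_congr rfl fun j _ => ?_
    rw [← hexp k j]; ring
  rw [Finset.sum_congr rfl h1, Finset.sum_comm]
  refine Finset.sum_eq_zero fun j hj => ?_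
  rw [Finset.mem_range] at hj
  rw [← Finset.mul_sum]
  by_cases hjc : j = c
  · subst hjc; rw [h0, zero_mul]
  · set w := Complex.exp (2 * Real.pi * Complex.I * (((j : ℤ) - c : ℤ) / M : ℂ)) with hw
    have hw1 : w ≠ 1 := by
      intro h
      rw [hw, Complex.exp_eq_one_iff] at h
      obtain ⟨n, hn⟩ := h
      have h2pi : (2 * Real.pi * Complex.I : ℂ) ≠ 0 := Complex.two_pi_I_ne_zero
      have : (((j : ℤ) - c : ℤ) : ℂ) = n * M := by
        have h3 : (2 * Real.pi * Complex.I : ℂ) * ((((j : ℤ) - c : ℤ) : ℂ) / M) =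
            (2 * Real.pi * Complex.I) * n := by
          rw [hn]; ring
        have h4 := mul_left_cancel₀ h2pi h3
        rw [div_eq_iff hMC] at h4
        exact h4
      have h5 : ((j : ℤ) - c) = n * M := by exact_mod_cast this
      have h6 : (M : ℤ) ∣ ((j : ℤ) - c) := ⟨n, by rw [h5]; ring⟩
      have h7 : |(j : ℤ) - c| < M := by
        rw [abs_lt]; constructor <;> omega
      have h8 := Int.eq_zero_of_abs_lt_dvd h6 h7
      omega
    have hwM : w ^ M = 1 := by
      rw [hw, ← Complex.exp_nat_mul, Complex.exp_eq_one_iff]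
      refine ⟨(j : ℤ) - c, ?_⟩
      push_cast
      field_simp
    rw [geom_sum_eq hw1, hwM, sub_self, zero_div, mul_zero]

end Pool.Agent.Lib.StL
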