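import Mathlib
import Pool.Agent.Lib.StL.Sign
import Pool.Agent.Lib.StL.Sum

open Polynomial

namespace Pool.Agent.Lib.StL

/-- The comparison polynomial. -/
noncomputable def cmp (Q : ℝ[X]) (S : Finset ℝ) : ℝ[X] :=
  Q * (C 2 + C 2 * X) * ∏ r ∈ S, (C 2 * X - C (2 * r))

noncomputable def gam (P : ℂ[X]) (S : Finset ℝ) : ℂ[X] :=
  (P * (1 + X)) * ((1 + X) * ∏ r ∈ S, (X ^ 2 - C (2 * (r : ℂ)) * X + 1))

theorem cmp_eval (Q : ℝ[X]) (S : Finset ℝ) (x : ℝ) :
    (cmp Q S).eval x = (Q.eval x * ∏ r ∈ S, (x - r)) * ((2 + 2 * x) * 2 ^ S.card) := by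
  unfold cmp
  rw [eval_mul, eval_mul, eval_prod]
  have : ∀ r ∈ S, (C 2 * X - C (2 * r) : ℝ[X]).eval x = 2 * (x - r) := by
    intro r _; simp; ring
  rw [Finset.prod_congr rfl this, Finset.prod_mul_distrib, Finset.prod_const]
  simp
  ring

theorem gam_eval (P : ℂ[X]) (Q : ℝ[X]) (g : ℕ) (S : Finset ℝ)
    (hPQ : ∀ θ : ℝ, Complex.exp (-(g : ℂ) * (θ : ℂ) * Complex.I) *
      P.eval (Complex.exp ((θ : ℂ) * Complex.I)) = ((Q.eval (Real.cos θ) : ℝ) : ℂ)) (θ : ℝ) :
    Complex.exp (-((g + 1 + S.card : ℕ) : ℂ) * (θ : ℂ) * Complex.I) *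
      (gam P S).eval (Complex.exp ((θ : ℂ) * Complex.I)) =
      (((cmp Q S).eval (Real.cos θ) : ℝ) : ℂ) := by
  set w := Complex.exp ((θ : ℂ) * Complex.I) with hw
  have hw0 : w ≠ 0 := Complex.exp_ne_zero _
  have hinv : Complex.exp (-(θ : ℂ) * Complex.I) = w⁻¹ := by
    rw [hw, ← Complex.exp_neg]; congr 1; ring
  have hcos : Complex.cos (θ : ℂ) = (w + w⁻¹) / 2 := by
    rw [Complex.cos, ← hinv]
  have he : Complex.exp (-((g + 1 + S.card : ℕ) : ℂ) * (θ : ℂ) * Complex.I) =
      Complex.exp (-(g : ℂ) * (θ : ℂ) * Complex.I) * w⁻¹ * (w⁻¹) ^ S.card := by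
    rw [← hinv, ← Complex.exp_nat_mul, ← Complex.exp_add, ← Complex.exp_add]
    congr 1; push_cast; ring
  unfold gam cmp
  rw [he]
  simp only [eval_mul, eval_prod, eval_add, eval_one, eval_X, eval_sub, eval_pow, eval_C]
  push_cast
  rw [← hPQ θ, hcos]
  have h1 : ∏ r ∈ S, (2 * ((w + w⁻¹) / 2) - 2 * (r : ℂ)) =
      (w⁻¹) ^ S.card * ∏ r ∈ S, (w ^ 2 - 2 * (r : ℂ) * w + 1) := by
    rw [← Finset.prod_const, ← Finset.prod_mul_distrib]
    refine Finset.prod_congr rfl fun r _ => ?_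
    field_simp
    ring
  rw [h1, ← hw]
  field_simp
  ring

theorem gam_natDegree (S : Finset ℝ) :
    ((1 + X : ℂ[X]) * ∏ r ∈ S, (X ^ 2 - C (2 * (r : ℂ)) * X + 1)).natDegree ≤ 1 + 2 * S.card := by
  refine natDegree_mul_le.trans (Nat.add_le_add (by compute_degree) ?_)
  refine (natDegree_prod_le _ _).trans ?_
  refine (Finset.sum_le_card_nsmul _ _ 2 ?_).trans (by simp [mul_comm])
  intro r _
  compute_degree

/-- The coefficient of `gam` in degree `g + 1 + |S|` vanishes. -/
theorem gam_coeff (P : ℂ[X]) (g m : ℕ) (S : Finset ℝ) (hS : S.card < m)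
    (hfl : ∀ i, g < i + m → i ≤ g + m → (P * (1 + X)).coeff i = 0) :
    (gam P S).coeff (g + 1 + S.card) = 0 := by
  unfold gam
  rw [coeff_mul]
  refine Finset.sum_eq_zero fun ij hij => ?_
  have hij := Finset.HasAntidiagonal.mem_antidiagonal.1 hij
  by_cases hj : ij.2 ≤ 1 + 2 * S.card
  · rw [hfl ij.1 (by omega) (by omega), zero_mul]
  · rw [coeff_eq_zero_of_natDegree_lt (lt_of_le_of_lt (gam_natDegree S) (by omega)), mul_zero]

/-- Core: a flat middle part of half-width `m` forces `m` odd roots. -/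
theorem core (P : ℂ[X]) (Q : ℝ[X]) (g m : ℕ) (hQ : Q ≠ 0)
    (hPQ : ∀ θ : ℝ, Complex.exp (-(g : ℂ) * (θ : ℂ) * Complex.I) *
      P.eval (Complex.exp ((θ : ℂ) * Complex.I)) = ((Q.eval (Real.cos θ) : ℝ) : ℂ))
    (hfl : ∀ i, g < i + m → i ≤ g + m → (P * (1 + X)).coeff i = 0) :
    m ≤ (oddRoots Q).card := by
  by_contra hlt
  rw [not_le] at hlt
  set S := oddRoots Q with hS
  set K := cmp Q S with hK
  set G := gam P S with hG
  set c := g + 1 + S.card with hc
  set L := G.natDegree + c + K.natDegree + 1 with hL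
  have hK0 : K ≠ 0 := by
    rw [hK, cmp]
    refine mul_ne_zero (mul_ne_zero hQ ?_) (Finset.prod_ne_zero_iff.2 fun r _ => ?_)
    · intro h
      have := congrArg (fun p => p.coeff 1) h
      simp [coeff_C] at this
    · intro h
      have := congrArg (fun p => p.coeff 1) h
      simp [coeff_C] at this
  have hsum := filter_sum G (2 * L) c (by omega) (by omega) (gam_coeff P g m S hlt hfl)
  have hsum2 : ∑ k ∈ Finset.range (2 * L), K.eval (Real.cos (2 * Real.pi * k / (2 * L : ℕ))) = 0 := by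
    have : ((∑ k ∈ Finset.range (2 * L), K.eval (Real.cos (2 * Real.pi * k / (2 * L : ℕ))) : ℝ) : ℂ)
        = 0 := by
      rw [← hsum, Complex.ofReal_sum]
      refine Finset.sum_congr rfl fun k _ => ?_
      exact (gam_eval P Q g S hPQ (2 * Real.pi * k / (2 * L : ℕ))).symm
    exact_mod_cast this
  -- every term vanishes
  have hterm : ∀ k ∈ Finset.range (2 * L), K.eval (Real.cos (2 * Real.pi * k / (2 * L : ℕ))) = 0 := by
    have hKe : ∀ x, K.eval x = (Q.eval x * ∏ r ∈ S, (x - r)) * ((2 + 2 * x) * 2 ^ S.card) :=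
      fun x => cmp_eval Q S x
    have hpos : ∀ θ : ℝ, 0 ≤ (2 + 2 * Real.cos θ) * (2 : ℝ) ^ S.card := by
      intro θ
      have := Real.neg_one_le_cos θ
      have h2 : (0 : ℝ) ≤ 2 ^ S.card := by positivity
      exact mul_nonneg (by linarith) h2
    rcases const_sign_mul Q hQ with h | h
    · refine (Finset.sum_eq_zero_iff_of_nonneg ?_).1 hsum2
      intro k _
      rw [hKe]
      exact mul_nonneg (h _ (Real.neg_one_le_cos _) (Real.cos_le_one _)) (hpos _)
    · have := (Finset.sum_eq_zero_iff_of_nonpos ?_).1 hsum2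
      · exact this
      · intro k _
        rw [hKe]
        exact mul_nonpos_of_nonpos_of_nonneg (h _ (Real.neg_one_le_cos _) (Real.cos_le_one _)) (hpos _)
  -- too many roots
  have hLpos : 0 < L := by omega
  have hinj : Set.InjOn (fun k : ℕ => Real.cos (2 * Real.pi * k / (2 * L : ℕ)))
      (Finset.range L : Set ℕ) := by
    intro a ha b hb hab
    have hmem : ∀ k : ℕ, k ∈ (Finset.range L : Set ℕ) →
        2 * Real.pi * k / (2 * L : ℕ) ∈ Set.Icc (0 : ℝ) Real.pi := by
      intro k hk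
      have hk' : k < L := by simpa using hk
      have hk2 : (k : ℝ) ≤ L := by exact_mod_cast hk'.le
      have hL' : (0 : ℝ) < L := by exact_mod_cast hLpos
      constructor
      · positivity
      · push_cast
        rw [div_le_iff₀ (by positivity)]
        nlinarith [Real.pi_pos]
    have := Real.injOn_cos (hmem a ha) (hmem b hb) hab
    have hL' : (0 : ℝ) < L := by exact_mod_cast hLpos
    push_cast at this
    field_simp at this
    exact_mod_cast this
  have hcard : L ≤ K.roots.toFinset.card := by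
    rw [← Finset.card_range L, ← Finset.card_image_of_injOn hinj]
    refine Finset.card_le_card ?_
    intro x hx
    rw [Finset.mem_image] at hx
    obtain ⟨k, hk, rfl⟩ := hx
    rw [Multiset.mem_toFinset, mem_roots hK0, IsRoot.def]
    exact hterm k (Finset.mem_range.2 (by have := Finset.mem_range.1 hk; omega))
  have h1 : K.roots.toFinset.card ≤ K.natDegree :=
    (Multiset.toFinset_card_le _).trans (card_roots' K)
  omega

end Pool.Agent.Lib.StL
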