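import Mathlib
import Pool.Agent.Lib.StL.Core

open Polynomial

namespace Pool.Agent.Lib.StL

variable {g : ℕ}

/-- The Alexander polynomial `det (t V - Vᵀ)` of a Seifert matrix. -/
noncomputable def alexander (V : Matrix (Fin (2 * g)) (Fin (2 * g)) ℤ) : ℤ[X] :=
  ((X : ℤ[X]) • V.map C - V.transpose.map C).det

theorem alexander_natDegree (V : Matrix (Fin (2 * g)) (Fin (2 * g)) ℤ) :
    (alexander V).natDegree ≤ 2 * g := by
  have h := Polynomial.natDegree_det_X_add_C_le V (-V.transpose)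
  have h2 : (X : ℤ[X]) • V.map C + (-V.transpose).map C = (X : ℤ[X]) • V.map C - V.transpose.map C := by
    ext i j
    simp [sub_eq_add_neg]
  rw [h2] at h
  simpa [alexander] using h

theorem alexander_eval₂ {R : Type*} [CommRing R] (V : Matrix (Fin (2 * g)) (Fin (2 * g)) ℤ) (z : R) :
    ((alexander V).map (Int.castRingHom R)).eval z =
      (z • V.map (Int.cast : ℤ → R) - V.transpose.map (Int.cast : ℤ → R)).det := by
  rw [eval_map, ← coe_eval₂RingHom, alexander, RingHom.map_det]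
  congr 1
  ext i j
  change eval₂ (Int.castRingHom R) z (X * C (V i j) - C (V j i)) =
    z * ((V i j : ℤ) : R) - ((V j i : ℤ) : R)
  rw [eval₂_sub, eval₂_mul, eval₂_X, eval₂_C, eval₂_C]
  rfl

/-- Palindromicity, evaluated form. -/
theorem alexander_palin (V : Matrix (Fin (2 * g)) (Fin (2 * g)) ℤ) (z : ℂ) (hz : z ≠ 0) :
    z ^ (2 * g) * ((alexander V).map (Int.castRingHom ℂ)).eval z⁻¹ =
      ((alexander V).map (Int.castRingHom ℂ)).eval z := by
  rw [alexander_eval₂, alexander_eval₂]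
  set A := V.map (Int.cast : ℤ → ℂ) with hA
  have hAt : V.transpose.map (Int.cast : ℤ → ℂ) = A.transpose := rfl
  rw [hAt]
  have h1 := Matrix.det_smul (z⁻¹ • A - A.transpose) z
  rw [Fintype.card_fin] at h1
  rw [← h1]
  have h2 : z • (z⁻¹ • A - A.transpose) = -((z • A - A.transpose).transpose) := by
    ext i j
    simp [Matrix.smul_apply, Matrix.transpose_apply]
    field_simp
  rw [h2, Matrix.det_neg, Fintype.card_fin, Matrix.det_transpose, pow_mul]
  simp

/-- The real polynomial in `cos θ`. -/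
noncomputable def cosPoly (V : Matrix (Fin (2 * g)) (Fin (2 * g)) ℤ) : ℝ[X] :=
  ∑ j ∈ Finset.range (2 * g + 1), C (((alexander V).coeff j : ℤ) : ℝ) *
    Polynomial.Chebyshev.T ℝ ((j : ℤ) - g)

theorem cosPoly_eval (V : Matrix (Fin (2 * g)) (Fin (2 * g)) ℤ) (θ : ℝ) :
    (cosPoly V).eval (Real.cos θ) = ∑ j ∈ Finset.range (2 * g + 1),
      (((alexander V).coeff j : ℤ) : ℝ) * Real.cos (((j : ℝ) - g) * θ) := by
  unfold cosPoly
  rw [eval_finsetSum]
  refine Finset.sum_congr rfl fun j _ => ?_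
  rw [eval_mul, eval_C, Polynomial.Chebyshev.T_real_cos]
  push_cast
  rfl

theorem circle_eq (V : Matrix (Fin (2 * g)) (Fin (2 * g)) ℤ) (θ : ℝ) :
    Complex.exp (-(g : ℂ) * (θ : ℂ) * Complex.I) *
      ((alexander V).map (Int.castRingHom ℂ)).eval (Complex.exp ((θ : ℂ) * Complex.I)) =
      (((cosPoly V).eval (Real.cos θ) : ℝ) : ℂ) := by
  set w := Complex.exp ((θ : ℂ) * Complex.I) with hw
  have hw0 : w ≠ 0 := Complex.exp_ne_zero _
  set P := (alexander V).map (Int.castRingHom ℂ) with hP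
  have hdeg : P.natDegree < 2 * g + 1 :=
    lt_of_le_of_lt (natDegree_map_le.trans (alexander_natDegree V)) (by omega)
  have hcoef : ∀ j, P.coeff j = (((alexander V).coeff j : ℤ) : ℂ) := by
    intro j; rw [hP, coeff_map]; rfl
  set u := Complex.exp (-(g : ℂ) * (θ : ℂ) * Complex.I) * P.eval w with hu
  have hgw : Complex.exp (-(g : ℂ) * (θ : ℂ) * Complex.I) = (w⁻¹) ^ g := by
    rw [hw, ← Complex.exp_neg, ← Complex.exp_nat_mul]; congr 1; ring
  have hu' : u = w ^ g * P.eval w⁻¹ := by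
    have hpal : w ^ (2 * g) * P.eval w⁻¹ = P.eval w := alexander_palin V w hw0
    rw [hu, ← hpal, hgw, two_mul, pow_add, inv_pow]
    field_simp
  have h1 : u = ∑ j ∈ Finset.range (2 * g + 1), P.coeff j *
      Complex.exp ((((j : ℝ) - g) * θ : ℝ) * Complex.I) := by
    rw [hu, eval_eq_sum_range' hdeg, Finset.mul_sum]
    refine Finset.sum_congr rfl fun j _ => ?_
    rw [hw, ← Complex.exp_nat_mul, mul_left_comm, ← Complex.exp_add]
    congr 2
    push_cast; ring
  have h2 : u = ∑ j ∈ Finset.range (2 * g + 1), P.coeff j *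
      Complex.exp (-(((((j : ℝ) - g) * θ : ℝ) : ℂ)) * Complex.I) := by
    rw [hu', eval_eq_sum_range' hdeg, Finset.mul_sum]
    refine Finset.sum_congr rfl fun j _ => ?_
    rw [hw, ← Complex.exp_neg, ← Complex.exp_nat_mul, ← Complex.exp_nat_mul, mul_left_comm,
      ← Complex.exp_add]
    congr 2
    push_cast; ring
  have h3 : u = (u + u) / 2 := by ring
  rw [h3]
  nth_rewrite 1 [h1]
  rw [h2, ← Finset.sum_add_distrib, cosPoly_eval, Complex.ofReal_sum, Finset.sum_div]
  refine Finset.sum_congr rfl fun j _ => ?_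
  rw [Complex.ofReal_mul _ (Real.cos _), Complex.ofReal_cos, Complex.cos, hcoef]
  push_cast
  ring

theorem flat_coeff (V : Matrix (Fin (2 * g)) (Fin (2 * g)) ℤ) (m : ℕ) (hm : m ≤ g)
    (hfl : ∀ j : ℕ, g ≤ j + m → j ≤ g + m →
      (-1 : ℤ) ^ j * (alexander V).coeff j = (-1) ^ g * (alexander V).coeff g) :
    ∀ i, g < i + m → i ≤ g + m →
      ((alexander V).map (Int.castRingHom ℂ) * (1 + X)).coeff i = 0 := by
  intro i h1 h2
  obtain ⟨k, rfl⟩ : ∃ k, i = k + 1 := ⟨i - 1, by omega⟩
  rw [mul_add, mul_one, coeff_add, coeff_mul_X, coeff_map, coeff_map]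
  have ha := hfl (k + 1) (by omega) h2
  have hb := hfl k (by omega) (by omega)
  have hc : (alexander V).coeff (k + 1) + (alexander V).coeff k = 0 := by
    rw [← ha, pow_succ] at hb
    have h3 : (-1 : ℤ) ^ k * ((alexander V).coeff (k + 1) + (alexander V).coeff k) = 0 := by
      linarith
    rcases mul_eq_zero.1 h3 with h | h
    · exact absurd h (pow_ne_zero _ (by norm_num))
    · exact h
  have : ((((alexander V).coeff (k + 1) + (alexander V).coeff k : ℤ)) : ℂ) = 0 := by
    rw [hc]; simp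
  push_cast at this
  simpa using this

end Pool.Agent.Lib.StL
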